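import Pool.Agent.H58.SU.Main
import Pool.Agent.H58.ST.Asym

/-!
# The exponential rate, all angles
-/

set_option autoImplicit false
set_option linter.unusedSectionVars false

open Module Filter
open scoped InnerProductSpace

namespace Pool.Agent.H58.SU

open Pool.Agent.H58.SK Pool.Agent.H58.ST Pool.Agent.H818R2 Pool.Agent.H161R2.KissSym

/-- the main bound -/
theorem main_all {θ θ₁ : ℝ} (hθ0 : 0 < θ) (hθ2 : θ < Real.pi / 2) (hθ₁0 : 0 < θ₁)
    (hθ₁1 : θ₁ < Real.pi / 2) (hθθ : 2 * Real.cos θ - 1 < Real.cos θ * Real.cos θ₁)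
    {ε : ℝ} (hε : 0 < ε) :
    ∃ κ : ℝ, 0 < κ ∧ ∃ s : ℕ, ∀ᶠ n : ℕ in atTop, ∀ X : Finset (EuclideanSpace ℝ (Fin n)),
      IsSphCode n θ X →
      ∀ T : Set (EuclideanSpace ℝ (Fin n) ≃ₗᵢ[ℝ] EuclideanSpace ℝ (Fin n)),
      (∀ g ∈ T, (1 - κ) * n ≤ trc g ∧ n ^ s * misses X g ≤ X.card) →
      (X.card : ℝ) ≤ (2 : ℝ) ^ (ε * n) *
        max (sphMax (max (finrank ℝ (fixS T)) 4) θ : ℝ) (sphMax n θ₁) := by
  have hs : 0 < Real.sin (θ / 2) :=
    Real.sin_pos_of_pos_of_lt_pi (by linarith) (by linarith [Real.pi_pos])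
  have hcos0 : 0 < Real.cos θ := Real.cos_pos_of_mem_Ioo ⟨by linarith, hθ2⟩
  have hcos1 : Real.cos θ < 1 := by
    have h1 := cos_eq θ
    have h2 : 0 < Real.sin (θ / 2) ^ 2 := by positivity
    linarith
  obtain ⟨m, hm, h7⟩ := exists_m hθ0 hθ2
  -- the constants
  set ε₁ := ε / 4 with hε₁
  have hε₁0 : 0 < ε₁ := by positivity
  set a : ℝ := min ((1 - Real.cos θ - Real.cos θ * (1 - Real.cos θ₁)) / 17) ((1 - Real.cos θ) / 16)
    with hadef
  have ha : 0 < a := lt_min (div_pos (by linarith) (by norm_num)) (div_pos (by linarith) (by norm_num))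
  have ha1 : 17 * a ≤ 1 - Real.cos θ - Real.cos θ * (1 - Real.cos θ₁) := by
    have h1 : a ≤ (1 - Real.cos θ - Real.cos θ * (1 - Real.cos θ₁)) / 17 := min_le_left _ _
    linarith
  have ha2 : 16 * a ≤ 1 - Real.cos θ := by
    have h1 : a ≤ (1 - Real.cos θ) / 16 := min_le_right _ _
    linarith
  obtain ⟨r, hr⟩ := exists_nat_ge (1 / a + 1)
  obtain ⟨q, hq⟩ := exists_nat_ge (1 / a ^ 2)
  set C₁ : ℝ := 2 * 4 ^ (r + 1) / a ^ 2 with hC₁
  set C₂ : ℝ := (r : ℝ) ^ r * (r.factorial : ℝ) ^ 2 with hC₂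
  have hr1 : (1 : ℝ) ≤ r := by
    have : 0 < 1 / a := by positivity
    linarith
  have hC₁0 : 0 < C₁ := by positivity
  have hC₂0 : 0 < C₂ := by positivity
  set b : ℝ := 2 + 2 / a + 8 * m with hb
  have hb2 : 2 ≤ b := by
    have : 0 < 2 / a := by positivity
    have : (0 : ℝ) ≤ m := Nat.cast_nonneg _
    linarith
  have hb0 : 0 < b := by linarith
  have hlb : 0 < Real.log b := Real.log_pos (by linarith)
  set C : ℝ := q * C₁ + C₂ with hC
  have hC0 : 0 < C := by positivity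
  set κ : ℝ := ε₁ * Real.log 2 / (C * Real.log b) with hκ
  have hκ0 : 0 < κ := by
    have := Real.log_pos (show (1 : ℝ) < 2 by norm_num)
    positivity
  have hbn : ∀ (n : ℕ) (x : ℝ), x ≤ C * κ * n → b ^ x ≤ (2 : ℝ) ^ (ε₁ * n) := by
    intro n x hx
    refine (Real.rpow_le_rpow_of_exponent_le (by linarith) hx).trans (le_of_eq ?_)
    rw [Real.rpow_def_of_pos hb0, Real.rpow_def_of_pos (by norm_num)]
    congr 1
    rw [hκ]
    field_simp
  refine ⟨κ, hκ0, r + 1, ?_⟩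
  have h2ε : (1 : ℝ) < (2 : ℝ) ^ ε₁ := Real.one_lt_rpow (by norm_num) hε₁0
  have hpow : ∀ n : ℕ, ((2 : ℝ) ^ ε₁) ^ n = (2 : ℝ) ^ (ε₁ * n) := fun n => by
    rw [Real.rpow_mul (by norm_num), Real.rpow_natCast]
  filter_upwards [ev_pow h2ε (2 * r * q) 1, ev_pow h2ε 0 (2 * (b ^ q * (8 * m))),
    eventually_ge_atTop 1, eventually_ge_atTop (2 * (r * 2 ^ r))]
    with n hn1 hn2 hn4 hn5 X₀ hX₀ T hT
  have hne : NeZero n := ⟨by omega⟩
  have hn4' : (1 : ℝ) ≤ n := by exact_mod_cast hn4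
  rw [one_mul, hpow] at hn1
  rw [pow_zero, mul_one, hpow] at hn2
  obtain ⟨T', hT1, hT2, hT3⟩ := exists_few_fix T
  rw [finrank_euclideanSpace_fin] at hT3
  classical
  set T₁ := insert 1 T' with hT₁
  have hfix : fixS (T₁ : Set (EuclideanSpace ℝ (Fin n) ≃ₗᵢ[ℝ] EuclideanSpace ℝ (Fin n))) = fixS T := by
    rw [← hT2]
    apply le_antisymm
    · intro x hx s hs
      exact hx s (by rw [hT₁, Finset.coe_insert]; exact Set.mem_insert_of_mem _ hs)
    · intro x hx s hs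
      rw [hT₁, Finset.coe_insert, Set.mem_insert_iff] at hs
      rcases hs with rfl | hs
      · rfl
      · exact hx s hs
  have hT₁c : T₁.card ≤ n + 1 := (Finset.card_insert_le _ _).trans (by omega)
  have hB0 : 0 ≤ 2 * κ * n := by positivity
  have hB : ∀ g ∈ T₁, Sm g (2 * κ * n) := by
    intro g hg
    rw [hT₁, Finset.mem_insert] at hg
    rcases hg with rfl | hg
    · exact sm_one hB0
    · refine (sm_trace g).mono ?_
      have h1 := (hT g (hT1 hg)).1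
      rw [trc] at h1
      linarith
  have hfail : ∀ g ∈ T₁, n ^ (r + 1) * misses X₀ g ≤ X₀.card := by
    intro g hg
    rw [hT₁, Finset.mem_insert] at hg
    rcases hg with rfl | hg
    · rw [misses_eq_zero fun x hx => hx, mul_zero]
      exact Nat.zero_le _
    · exact (hT g (hT1 hg)).2
  have hhalf := half_good hT₁c hn4 hn5 hfail
  set X := good X₀ T₁ r with hXdef
  have hXX : X ⊆ X₀ := good_sub X₀ T₁ r
  have hmaps : ∀ w ∈ words T₁ r, ∀ x ∈ X, w x ∈ X₀ := good_maps X₀ T₁ r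
  set e := max (finrank ℝ (fixS T)) 4 with he
  have he4 : 4 ≤ e := le_max_right _ _
  have hA1 : (1 : ℝ) ≤ sphMax e θ := by
    have h1 := sphMax_pos (d := e) (by omega) hs
    have h2 : 0 < sphMax e θ := by exact_mod_cast h1
    exact_mod_cast h2
  set k := ⌈C₁ * κ * n⌉₊ with hk
  set j := ⌈C₂ * κ * n⌉₊ with hj
  have hkle : (k : ℝ) ≤ C₁ * κ * n + 1 := (Nat.ceil_lt_add_one (by positivity)).le
  have hjle : (j : ℝ) ≤ C₂ * κ * n + 1 := (Nat.ceil_lt_add_one (by positivity)).le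
  have hm1 : (1 : ℝ) ≤ m := by exact_mod_cast hm
  have h8m : (8 * m : ℝ) ≤ b := by
    have : 0 < 2 / a := by positivity
    linarith
  set AA : ℝ := max (sphMax e θ : ℝ) (sphMax n θ₁) with hAA
  have hA1' : 1 ≤ AA := hA1.trans (le_max_left _ _)
  set M : ℝ := 8 * m * (2 : ℝ) ^ (ε₁ * n) * AA with hM
  have h2n : (1 : ℝ) ≤ (2 : ℝ) ^ (ε₁ * n) := Real.one_le_rpow (by norm_num) (by positivity)
  have hMge : (2 : ℝ) ^ (ε₁ * n) ≤ M := by
    have h1 : (1 : ℝ) ≤ 8 * m := by linarith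
    have h2 : (2 : ℝ) ^ (ε₁ * n) ≤ 8 * m * (2 : ℝ) ^ (ε₁ * n) :=
      le_mul_of_one_le_left (by positivity) h1
    calc (2 : ℝ) ^ (ε₁ * n) ≤ 8 * m * (2 : ℝ) ^ (ε₁ * n) := h2
      _ = 8 * m * (2 : ℝ) ^ (ε₁ * n) * 1 := (mul_one _).symm
      _ ≤ _ := mul_le_mul_of_nonneg_left hA1' (by positivity)
  have hAd : (sphMax (e + j) θ : ℝ) ≤ M := by
    have h1 := sphMax_iter hθ0 hθ2 hm h7 he4 j
    have h2 : (sphMax (e + j) θ : ℝ) ≤ (8 * m : ℝ) ^ j * sphMax e θ := by exact_mod_cast h1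
    refine h2.trans (mul_le_mul ?_ (le_max_left _ _) (by positivity) (by positivity))
    have h8 : (1 : ℝ) ≤ 8 * m := by linarith
    calc (8 * m : ℝ) ^ j = (8 * m : ℝ) ^ (j : ℝ) := (Real.rpow_natCast _ _).symm
      _ ≤ (8 * m : ℝ) ^ (C₂ * κ * n + 1) := Real.rpow_le_rpow_of_exponent_le h8 hjle
      _ = 8 * m * (8 * m : ℝ) ^ (C₂ * κ * n) := by
          rw [Real.rpow_add (by linarith), Real.rpow_one]
          ring
      _ ≤ 8 * m * b ^ (C₂ * κ * n) := by
          apply mul_le_mul_of_nonneg_left _ (by linarith)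
          exact Real.rpow_le_rpow (by linarith) h8m (by positivity)
      _ ≤ _ := by
          apply mul_le_mul_of_nonneg_left _ (by linarith)
          apply hbn
          have h9 : 0 ≤ q * C₁ * κ * n := by positivity
          rw [hC, add_mul, add_mul]
          exact le_add_of_nonneg_left h9
  have hMn : (sphMax n θ₁ : ℝ) ≤ M := by
    have h1 : (1 : ℝ) ≤ 8 * m * (2 : ℝ) ^ (ε₁ * n) := by
      have h2 : (1 : ℝ) ≤ 8 * m := by linarith
      exact one_le_mul_of_one_le_of_one_le h2 h2n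
    calc (sphMax n θ₁ : ℝ) ≤ AA := le_max_right _ _
      _ ≤ _ := le_mul_of_one_le_left (by linarith) h1
  have hcount := Pool.Agent.H58.SU.main_count (T := T₁) (a := a) (r := r) (q := q) (k := k)
    (d := e + j) (M := M) hθ0 hθ2 hθ₁0 hθ₁1 hX₀ hXX (Finset.mem_insert_self _ _) hmaps ha ha1 ha2 hr
    hB0 hB hq
    (by
      refine le_trans (le_of_eq ?_) (Nat.le_ceil _)
      rw [hC₁]
      ring)
    (by
      rw [hfix]
      push_cast
      have h1 : (finrank ℝ (fixS T) : ℝ) ≤ e := by exact_mod_cast le_max_left _ _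
      have h2 : C₂ * κ * n ≤ j := Nat.le_ceil _
      refine add_le_add h1 (le_trans (le_of_eq ?_) h2)
      rw [hC₂]
      ring)
    hAd (h2n.trans hMge) hMn
  refine hhalf.trans ((mul_le_mul_of_nonneg_left hcount (by norm_num)).trans ?_)
  -- the factors
  have hf1 : ((T₁.card : ℝ) ^ (2 * r) + 1) ^ q ≤ (2 : ℝ) ^ (ε₁ * n) := by
    refine le_trans ?_ hn1
    rw [pow_mul ((n : ℝ) + 2)]
    apply pow_le_pow_left₀ (by positivity)
    have h1 : (T₁.card : ℝ) ≤ n + 1 := by exact_mod_cast hT₁c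
    have h2 : (T₁.card : ℝ) ^ (2 * r) ≤ ((n : ℝ) + 1) ^ (2 * r) :=
      pow_le_pow_left₀ (by positivity) h1 _
    have h3 : 1 ≤ r := by exact_mod_cast hr1
    have h4 := pow_succ_add (x := (n : ℝ)) (by positivity) (p := 2 * r) (by omega)
    linarith
  have hf2 : (2 + 2 / a : ℝ) ^ (q * k) ≤ b ^ q * (2 : ℝ) ^ (ε₁ * n) := by
    have h0 : 0 < 2 / a := by positivity
    have h1 : (2 + 2 / a : ℝ) ≤ b := by linarith
    calc (2 + 2 / a : ℝ) ^ (q * k) ≤ b ^ (q * k) := pow_le_pow_left₀ (by positivity) h1 _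
      _ = b ^ ((q * k : ℕ) : ℝ) := (Real.rpow_natCast _ _).symm
      _ ≤ b ^ ((q : ℝ) + q * C₁ * κ * n) := by
          apply Real.rpow_le_rpow_of_exponent_le (by linarith)
          rw [Nat.cast_mul]
          have h8 : (0 : ℝ) ≤ q := Nat.cast_nonneg _
          refine (mul_le_mul_of_nonneg_left hkle h8).trans (le_of_eq ?_)
          ring
      _ = b ^ q * b ^ (q * C₁ * κ * n) := by rw [Real.rpow_add hb0, Real.rpow_natCast]
      _ ≤ _ := by
          apply mul_le_mul_of_nonneg_left _ (by positivity)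
          apply hbn
          have h9 : 0 ≤ C₂ * κ * n := by positivity
          rw [hC, add_mul, add_mul]
          exact le_add_of_nonneg_right h9
  have h2n0 : (0 : ℝ) < (2 : ℝ) ^ (ε₁ * n) := by positivity
  calc 2 * (((T₁.card : ℝ) ^ (2 * r) + 1) ^ q * (2 + 2 / a) ^ (q * k) * M)
      ≤ 2 * ((2 : ℝ) ^ (ε₁ * n) * (b ^ q * (2 : ℝ) ^ (ε₁ * n)) * M) := by
        apply mul_le_mul_of_nonneg_left _ (by norm_num)
        apply mul_le_mul_of_nonneg_right _ (by positivity)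
        exact mul_le_mul hf1 hf2 (by positivity) (by positivity)
    _ = (2 * (b ^ q * (8 * m))) * ((2 : ℝ) ^ (ε₁ * n)) ^ 3 * AA := by rw [hM]; ring
    _ ≤ (2 : ℝ) ^ (ε₁ * n) * ((2 : ℝ) ^ (ε₁ * n)) ^ 3 * AA := by
        apply mul_le_mul_of_nonneg_right _ (by linarith)
        exact mul_le_mul_of_nonneg_right hn2 (by positivity)
    _ = (2 : ℝ) ^ (ε * n) * AA := by
        congr 1
        have h1 : (2 : ℝ) ^ (ε₁ * n) * ((2 : ℝ) ^ (ε₁ * n)) ^ 3 = ((2 : ℝ) ^ (ε₁ * n)) ^ (4 : ℕ) := by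
          ring
        rw [h1, ← Real.rpow_natCast, ← Real.rpow_mul (by norm_num)]
        congr 1
        rw [hε₁]
        push_cast
        ring

end Pool.Agent.H58.SU
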