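import Pool.Agent.H58.ST.Orbit
import Pool.Agent.H58.ST.Net
import Pool.Graph.R_seed8.H161R2.KissSym2

/-!
# The points with nearly the same projection
-/

set_option autoImplicit false
set_option linter.unusedSectionVars false

open Module
open scoped InnerProductSpace

namespace Pool.Agent.H58.SU

open Pool.Agent.H58.SK Pool.Agent.H58.ST Pool.Agent.H818R2 Pool.Agent.H161R2.KissSym

section

variable {E : Type*} [NormedAddCommGroup E] [InnerProductSpace ℝ E] [FiniteDimensional ℝ E]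

/-- the points of the class `C` have nearly the projection `z` to `Z` and a small projection to all the
`V (g⁻¹ g')` of the rest -/
structure IsClass (T : Finset (E ≃ₗᵢ[ℝ] E)) (r : ℕ) (V : (E ≃ₗᵢ[ℝ] E) → Submodule ℝ E)
    (Z : Submodule ℝ E) (z : E) (a : ℝ) (C : Finset E) : Prop where
  near : ∀ x ∈ C, ‖Z.starProjection x - z‖ ≤ a
  rest : ∀ x ∈ C, ∀ g ∈ words T r, ∀ g' ∈ words T r,
    ‖(V (g⁻¹ * g')).starProjection (x - Z.starProjection x)‖ ≤ a

variable {X C : Finset E} {T : Finset (E ≃ₗᵢ[ℝ] E)} {r : ℕ}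
  {V : (E ≃ₗᵢ[ℝ] E) → Submodule ℝ E} {Z : Submodule ℝ E} {z : E} {a D : ℝ}

/-- nearly equal images of `z` imply equal restrictions -/
lemma eq_of_near (hX1 : ∀ x ∈ X, ‖x‖ = 1) (hXs : ∀ x ∈ X, ∀ y ∈ X, x ≠ y → D ≤ ‖x - y‖)
    (hT : ∀ w ∈ words T r, ∀ x ∈ C, w x ∈ X) (ha : 0 ≤ a)
    (hV : ∀ g ∈ words T r, ∀ g' ∈ words T r, ∀ x ∈ (V (g⁻¹ * g'))ᗮ,
      ‖(g⁻¹ * g') x - x‖ ≤ a * ‖x‖)
    (hC : IsClass T r V Z z a C) (hCX : C ⊆ X) {g g' : E ≃ₗᵢ[ℝ] E} (hg : g ∈ words T r)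
    (hg' : g' ∈ words T r) (h : ‖g z - g' z‖ < D - 5 * a) : ∀ x ∈ C, g x = g' x := by
  intro x hx
  set h0 := g⁻¹ * g' with hh0
  have hz : ‖h0 z - z‖ < D - 5 * a := by
    have h1 : g (h0 z - z) = g' z - g z := by
      rw [map_sub]
      have h2 : g (h0 z) = g' z := g.apply_symm_apply (g' z)
      rw [h2]
    rw [← LinearIsometryEquiv.norm_map g, h1, norm_sub_rev]
    exact h
  set y := x - Z.starProjection x with hy
  set e := Z.starProjection x - z with he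
  have hx1 : x = z + e + y := by rw [hy, he]; abel
  have hyn : ‖y‖ ≤ 1 := by
    have h5 : ‖x‖ ^ 2 = ‖Z.starProjection x‖ ^ 2 + ‖y‖ ^ 2 := by
      have h6 : x = Z.starProjection x + y := by rw [hy]; abel
      conv_lhs => rw [h6]
      rw [norm_add_sq_real, (Submodule.sub_starProjection_mem_orthogonal x : y ∈ Zᗮ) _
        (Submodule.starProjection_apply_mem Z x)]
      ring
    rw [hX1 x (hCX hx)] at h5
    nlinarith [norm_nonneg y, sq_nonneg ‖Z.starProjection x‖]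
  have hye : ‖h0 y - y‖ ≤ 3 * a := by
    have h1 := disp_le ha (hV g hg g' hg') y
    have h2 := hC.rest x hx g hg g' hg'
    nlinarith
  have hee : ‖h0 e - e‖ ≤ 2 * a := by
    have h1 := hC.near x hx
    refine (norm_sub_le _ _).trans ?_
    rw [LinearIsometryEquiv.norm_map]
    linarith
  have hxx : ‖h0 x - x‖ < D := by
    have h1 : h0 x - x = (h0 z - z) + (h0 e - e) + (h0 y - y) := by
      rw [hx1, map_add, map_add]
      abel
    rw [h1]
    have h2 := norm_add₃_le (a := h0 z - z) (b := h0 e - e) (c := h0 y - y)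
    linarith
  by_contra hne
  have h1 := hXs _ (hT g hg x hx) _ (hT g' hg' x hx) hne
  have h2 : g (h0 x - x) = g' x - g x := by
    rw [map_sub]
    have h3 : g (h0 x) = g' x := g.apply_symm_apply (g' x)
    rw [h3]
  rw [← LinearIsometryEquiv.norm_map g, h2, norm_sub_rev] at hxx
  linarith

/-- the class is in a small space if `z` is short -/
theorem class_short (hX1 : ∀ x ∈ X, ‖x‖ = 1) (hXs : ∀ x ∈ X, ∀ y ∈ X, x ≠ y → D ≤ ‖x - y‖)
    (hT : ∀ w ∈ words T r, ∀ x ∈ C, w x ∈ X) (ha : 0 < a) (ha' : 5 * a < D)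
    (hV : ∀ g ∈ words T r, ∀ g' ∈ words T r, ∀ x ∈ (V (g⁻¹ * g'))ᗮ,
      ‖(g⁻¹ * g') x - x‖ ≤ a * ‖x‖)
    (hC : IsClass T r V Z z a C) (hCX : C ⊆ X) (h1T : 1 ∈ T) (hr : 1 / a + 1 ≤ r)
    (hz1 : ‖z‖ ≤ 1) (hz : ‖z‖ ^ 2 ≤ (D - 5 * a) ^ 2 / 2 - a)
    {B : ℝ} (hB0 : 0 ≤ B) (hB : ∀ t ∈ T, Sm t B) :
    ∃ P : Submodule ℝ E, (∀ x ∈ C, x ∈ P) ∧
      (finrank ℝ P : ℝ) ≤ finrank ℝ (fixS (T : Set (E ≃ₗᵢ[ℝ] E))) +
        (r : ℝ) ^ r * ((r.factorial : ℝ) ^ 2 * B / 2) := by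
  classical
  refine tuple_dim h1T ?_ hB0 hB
  set A := (words T r).image (res C) with hA
  have hex : ∀ f ∈ A, ∃ w ∈ words T r, res C w = f := fun f hf => Finset.mem_image.1 hf
  choose! w hw using hex
  have hne : ∀ f ∈ A, ∀ f' ∈ A, f ≠ f' → D - 5 * a ≤ ‖w f z - w f' z‖ := by
    intro f hf f' hf' hff
    by_contra hcon
    push Not at hcon
    apply hff
    rw [← (hw f hf).2, ← (hw f' hf').2]
    funext x
    exact eq_of_near hX1 hXs hT ha.le hV hC hCX (hw f hf).1 (hw f' hf').1 hcon x x.2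
  have hinj : Set.InjOn (fun f => w f z) A := by
    intro f hf f' hf' hff
    by_contra hcon
    have h1 := hne f hf f' hf' hcon
    simp only at hff
    rw [hff, sub_self, norm_zero] at h1
    linarith
  have h1 := cluster_card (s := A.image fun f => w f z) (R := ‖z‖ ^ 2) (D := (D - 5 * a) ^ 2)
    (η := a) ha.le (by positivity)
    (by
      intro p hp
      obtain ⟨f, _, rfl⟩ := Finset.mem_image.1 hp
      rw [LinearIsometryEquiv.norm_map])
    (by
      intro p hp q hq hpq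
      obtain ⟨f, hf, rfl⟩ := Finset.mem_image.1 hp
      obtain ⟨f', hf', rfl⟩ := Finset.mem_image.1 hq
      have h2 := hne f hf f' hf' fun h => hpq (by rw [h])
      exact pow_le_pow_left₀ (by linarith) h2 2)
    hz
  rw [Finset.card_image_of_injOn hinj] at h1
  have h2 : (A.card : ℝ) ≤ r := by
    refine le_trans ?_ hr
    have h3 : (A.card : ℝ) ≤ (‖z‖ ^ 2 + a) / a := by rw [le_div_iff₀ ha]; exact h1
    refine h3.trans ?_
    rw [add_div, div_self ha.ne']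
    have h4 : ‖z‖ ^ 2 ≤ 1 := by nlinarith [norm_nonneg z]
    have h5 : ‖z‖ ^ 2 / a ≤ 1 / a := div_le_div_of_nonneg_right h4 ha.le
    linarith
  exact_mod_cast h2

end

section

variable {n : ℕ} {C : Finset (EuclideanSpace ℝ (Fin n))} {Z : Submodule ℝ (EuclideanSpace ℝ (Fin n))}
  {z : EuclideanSpace ℝ (Fin n)} {a : ℝ}

/-- the rests of the points of the class are a code of a larger angle if `z` is long -/
theorem class_long [NeZero n] {θ θ₁ : ℝ} (hs₁ : 0 < Real.sin (θ₁ / 2)) (hC : IsSphCode n θ C)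
    (ha : 0 < a) (hnear : ∀ x ∈ C, ‖Z.starProjection x - z‖ ≤ a)
    (hz1 : ‖z‖ ≤ 1) (hz : 1 - Real.cos θ - 11 * a ≤ ‖z‖ ^ 2) (hc₁0 : 0 ≤ Real.cos θ₁)
    (ha1 : 17 * a ≤ 1 - Real.cos θ - Real.cos θ * (1 - Real.cos θ₁))
    (ha2 : 16 * a ≤ 1 - Real.cos θ) (ha3 : a ≤ 1) (hc₁1 : Real.cos θ₁ < 1) :
    C.card ≤ 1 ∨ C.card ≤ sphMax n θ₁ := by
  classical
  set c := Real.cos θ with hc
  set c₁ := Real.cos θ₁ with hc₁
  -- inner products of the projections
  have hpp : ∀ x ∈ C, ∀ y ∈ C, |⟪Z.starProjection x, Z.starProjection y⟫_ℝ - ‖z‖ ^ 2| ≤ 3 * a := by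
    intro x hx y hy
    set e := Z.starProjection x - z with he
    set f := Z.starProjection y - z with hf
    have h1 : ⟪Z.starProjection x, Z.starProjection y⟫_ℝ - ‖z‖ ^ 2 =
        ⟪z, f⟫_ℝ + ⟪e, z⟫_ℝ + ⟪e, f⟫_ℝ := by
      have h2 : Z.starProjection x = z + e := by rw [he]; abel
      have h3 : Z.starProjection y = z + f := by rw [hf]; abel
      rw [h2, h3, inner_add_left, inner_add_right, inner_add_right, real_inner_self_eq_norm_sq]
      ring
    have h2 := hnear x hx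
    have h3 := hnear y hy
    have h4 := abs_real_inner_le_norm z f
    have h5 := abs_real_inner_le_norm e z
    have h6 := abs_real_inner_le_norm e f
    have h7 : ‖z‖ * ‖f‖ ≤ 1 * a := mul_le_mul hz1 h3 (norm_nonneg _) zero_le_one
    have h8 : ‖e‖ * ‖z‖ ≤ a * 1 := mul_le_mul h2 hz1 (norm_nonneg _) ha.le
    have h9 : ‖e‖ * ‖f‖ ≤ a * a := mul_le_mul h2 h3 (norm_nonneg _) ha.le
    have h10 : a * a ≤ a := by nlinarith
    rw [h1]
    refine (abs_add_three _ _ _).trans ?_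
    linarith
  set Y : EuclideanSpace ℝ (Fin n) → EuclideanSpace ℝ (Fin n) := fun x => x - Z.starProjection x
    with hY
  have hxy : ∀ x y, ⟪x, y⟫_ℝ = ⟪Z.starProjection x, Z.starProjection y⟫_ℝ + ⟪Y x, Y y⟫_ℝ := by
    intro x y
    have h2 : x = Z.starProjection x + Y x := by simp only [hY]; abel
    have h3 : y = Z.starProjection y + Y y := by simp only [hY]; abel
    have h4 : ⟪Z.starProjection x, Y y⟫_ℝ = 0 :=
      (Submodule.sub_starProjection_mem_orthogonal y : Y y ∈ Zᗮ) _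
        (Submodule.starProjection_apply_mem Z x)
    have h5 : ⟪Y x, Z.starProjection y⟫_ℝ = 0 := by
      rw [real_inner_comm]
      exact (Submodule.sub_starProjection_mem_orthogonal x : Y x ∈ Zᗮ) _
        (Submodule.starProjection_apply_mem Z y)
    conv_lhs => rw [h2, h3]
    rw [inner_add_left, inner_add_right, inner_add_right, h4, h5]
    ring
  have hYn : ∀ x ∈ C, |‖Y x‖ ^ 2 - (1 - ‖z‖ ^ 2)| ≤ 3 * a := by
    intro x hx
    have h1 := hxy x x
    rw [real_inner_self_eq_norm_sq, real_inner_self_eq_norm_sq (Y x), hC.1 x hx] at h1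
    have h2 := hpp x hx x hx
    rw [abs_le] at h2 ⊢
    constructor <;> linarith [h2.1, h2.2]
  rcases Nat.lt_or_ge 1 C.card with hcard | hcard
  swap
  · exact Or.inl hcard
  right
  obtain ⟨x₀, hx₀, y₀, hy₀, hne₀⟩ := Finset.one_lt_card.1 hcard
  set w := 1 - ‖z‖ ^ 2 with hw
  have hwlow : (1 - c) / 2 - 3 * a ≤ w := by
    have h1 := hC.2 x₀ hx₀ y₀ hy₀ hne₀
    rw [hxy] at h1
    have h2 := abs_le.1 (hpp x₀ hx₀ y₀ hy₀)
    have h3 := abs_le.1 (hYn x₀ hx₀)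
    have h4 := abs_le.1 (hYn y₀ hy₀)
    have h5 := abs_le.1 (abs_real_inner_le_norm (Y x₀) (Y y₀))
    have h6 : ‖Y x₀‖ * ‖Y y₀‖ ≤ (‖Y x₀‖ ^ 2 + ‖Y y₀‖ ^ 2) / 2 := by
      nlinarith [sq_nonneg (‖Y x₀‖ - ‖Y y₀‖)]
    linarith [h2.1, h3.2, h4.2, h5.1]
  have hw3 : 0 < w - 3 * a := by linarith
  have hwup : w ≤ c + 11 * a := by linarith
  have hYpos : ∀ x ∈ C, w - 3 * a ≤ ‖Y x‖ ^ 2 := by
    intro x hx
    have h3 := abs_le.1 (hYn x hx)
    linarith [h3.1]
  have hY0 : ∀ x ∈ C, 0 < ‖Y x‖ := by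
    intro x hx
    have := hYpos x hx
    by_contra h
    have h0 : ‖Y x‖ = 0 := le_antisymm (not_lt.1 h) (norm_nonneg _)
    rw [h0] at this
    norm_num at this
    linarith
  have hYY : ∀ x ∈ C, ∀ y ∈ C, x ≠ y → ⟪Y x, Y y⟫_ℝ ≤ c₁ * (w - 3 * a) := by
    intro x hx y hy hne
    have h1 := hC.2 x hx y hy hne
    rw [hxy] at h1
    have h2 := abs_le.1 (hpp x hx y hy)
    have h3 : ⟪Y x, Y y⟫_ℝ ≤ c - (1 - w) + 3 * a := by
      have : ‖z‖ ^ 2 = 1 - w := by rw [hw]; ring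
      linarith [h2.1]
    have h4 : w * (1 - c₁) ≤ (c + 11 * a) * (1 - c₁) :=
      mul_le_mul_of_nonneg_right hwup (by linarith)
    have h5 : 11 * a * (1 - c₁) ≤ 11 * a := by nlinarith
    have h6 : 3 * a * c₁ ≤ 3 * a := by nlinarith
    nlinarith
  set u : EuclideanSpace ℝ (Fin n) → EuclideanSpace ℝ (Fin n) := fun x => ‖Y x‖⁻¹ • Y x with hu
  have hu1 : ∀ x ∈ C, ‖u x‖ = 1 := by
    intro x hx
    rw [hu]
    simp only
    rw [norm_smul, norm_inv, norm_norm, inv_mul_cancel₀ (hY0 x hx).ne']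
  have huu : ∀ x ∈ C, ∀ y ∈ C, x ≠ y → ⟪u x, u y⟫_ℝ ≤ c₁ := by
    intro x hx y hy hne
    rw [hu]
    simp only
    rw [inner_smul_left, inner_smul_right]
    simp only [map_inv₀, conj_trivial]
    have h1 := hYY x hx y hy hne
    have h2 := hY0 x hx
    have h3 := hY0 y hy
    have h4 : w - 3 * a ≤ ‖Y x‖ * ‖Y y‖ := by
      have h5 := mul_le_mul (hYpos x hx) (hYpos y hy) hw3.le (by positivity)
      have h6 : (w - 3 * a) ^ 2 ≤ (‖Y x‖ * ‖Y y‖) ^ 2 := by
        rw [mul_pow, sq (w - 3 * a)]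
        exact h5
      exact le_of_sq_le_sq h6 (by positivity)
    rw [← mul_assoc, ← mul_inv, mul_comm, ← div_eq_mul_inv, div_le_iff₀ (by positivity)]
    refine h1.trans ?_
    rw [mul_comm ‖Y x‖] at h4
    exact mul_le_mul_of_nonneg_left (by linarith) hc₁0
  have hinj : Set.InjOn u C := by
    intro x hx y hy hxy'
    by_contra hne
    have h1 := huu x hx y hy hne
    rw [hxy', real_inner_self_eq_norm_sq, hu1 y hy] at h1
    linarith
  rw [← Finset.card_image_of_injOn hinj]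
  refine le_sphMax hs₁ ⟨?_, ?_⟩
  · intro p hp
    obtain ⟨x, hx, rfl⟩ := Finset.mem_image.1 hp
    exact hu1 x hx
  · intro p hp q hq hpq
    obtain ⟨x, hx, rfl⟩ := Finset.mem_image.1 hp
    obtain ⟨y, hy, rfl⟩ := Finset.mem_image.1 hq
    exact huu x hx y hy fun h => hpq (by rw [h])

end

end Pool.Agent.H58.SU
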