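import Pool.Agent.H58.ST.Sharp

/-!
# Large codes of angle less than `π / 3` with symmetries of small rank
-/

set_option autoImplicit false
set_option linter.unusedSectionVars false

open Module Filter
open scoped InnerProductSpace

namespace Pool.Agent.H58.SU

open Pool.Agent.H58.ST Pool.Agent.H818R2 Pool.Agent.H161R2.KissSym

section

variable {n m p : ℕ} (e : Fin n ≃ (Fin m → Bool) ⊕ Fin p) (col : Fin p → Fin m) (u v : ℝ)

/-- the points -/
noncomputable def pt (σ : Fin m → Bool) (y : EuclideanSpace ℝ (Fin p)) : EuclideanSpace ℝ (Fin n) :=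
  WithLp.toLp 2 fun k => match e k with
    | .inl τ => if τ = σ then u else 0
    | .inr j => sg col σ j * y j * v

lemma pt_inl (σ : Fin m → Bool) (y : EuclideanSpace ℝ (Fin p)) {k : Fin n} {τ : Fin m → Bool}
    (h : e k = .inl τ) : pt e col u v σ y k = if τ = σ then u else 0 := by
  change (match e k with
    | .inl τ => if τ = σ then u else 0
    | .inr j => sg col σ j * y j * v) = _
  rw [h]

lemma pt_inr (σ : Fin m → Bool) (y : EuclideanSpace ℝ (Fin p)) {k : Fin n} {j : Fin p}
    (h : e k = .inr j) : pt e col u v σ y k = sg col σ j * y j * v := by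
  change (match e k with
    | .inl τ => if τ = σ then u else 0
    | .inr j => sg col σ j * y j * v) = _
  rw [h]

lemma gAt_pt (i : Fin m) (σ : Fin m → Bool) (y : EuclideanSpace ℝ (Fin p)) :
    gAt e col i (pt e col u v σ y) = pt e col u v (flipAt i σ) y := by
  ext k
  rw [gAt_apply]
  rcases h : e k with τ | j
  · have h1 : e (piAt e i k) = .inl (flipAt i τ) := by
      rw [piAt_inl e i h, Equiv.apply_symm_apply]
    rw [sAt_inl e col i h, one_mul, pt_inl e col u v σ y h1, pt_inl e col u v _ y h]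
    have h2 : flipAt i τ = σ ↔ τ = flipAt i σ := by
      constructor
      · rintro rfl; rw [flipAt_flipAt]
      · rintro rfl; rw [flipAt_flipAt]
    simp only [h2]
  · rw [sAt_inr e col i h, piAt_inr e i h, pt_inr e col u v σ y h, pt_inr e col u v _ y h, sg_flip]
    ring

lemma inner_pt (σ σ' : Fin m → Bool) (y y' : EuclideanSpace ℝ (Fin p)) :
    ⟪pt e col u v σ y, pt e col u v σ' y'⟫_ℝ =
      (if σ = σ' then u ^ 2 else 0) + v ^ 2 * ∑ j, sg col σ j * y j * (sg col σ' j * y' j) := by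
  rw [PiLp.inner_apply]
  rw [← Equiv.sum_comp e.symm, Fintype.sum_sum_type]
  congr 1
  · have h1 : ∀ τ, ⟪pt e col u v σ y (e.symm (.inl τ)), pt e col u v σ' y' (e.symm (.inl τ))⟫_ℝ =
        if τ = σ then (if σ = σ' then u ^ 2 else 0) else 0 := by
      intro τ
      rw [pt_inl e col u v σ y (Equiv.apply_symm_apply e _), pt_inl e col u v σ' y'
        (Equiv.apply_symm_apply e _)]
      by_cases h : τ = σ
      · subst h
        by_cases h' : τ = σ'
        · simp only [h', if_true, inner_real]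
          ring
        · simp [h']
      · simp [h]
    rw [Finset.sum_congr rfl fun τ _ => h1 τ, Finset.sum_ite_eq' Finset.univ σ,
      if_pos (Finset.mem_univ _)]
  · rw [Finset.mul_sum]
    refine Finset.sum_congr rfl fun j _ => ?_
    rw [pt_inr e col u v σ y (Equiv.apply_symm_apply e _), pt_inr e col u v σ' y'
      (Equiv.apply_symm_apply e _), inner_real]
    ring

lemma inner_same (σ : Fin m → Bool) (y y' : EuclideanSpace ℝ (Fin p)) :
    ⟪pt e col u v σ y, pt e col u v σ y'⟫_ℝ = u ^ 2 + v ^ 2 * ⟪y, y'⟫_ℝ := by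
  rw [inner_pt, if_pos rfl, PiLp.inner_apply]
  congr 2
  refine Finset.sum_congr rfl fun j _ => ?_
  rw [inner_real]
  calc sg col σ j * y j * (sg col σ j * y' j) = (sg col σ j * sg col σ j) * (y j * y' j) := by ring
    _ = _ := by rw [Pool.Agent.H58.ST.sg_sq, one_mul]

lemma norm_pt (huv : u ^ 2 + v ^ 2 = 1) (σ : Fin m → Bool) {y : EuclideanSpace ℝ (Fin p)}
    (hy : ‖y‖ = 1) : ‖pt e col u v σ y‖ = 1 := by
  have h1 : ‖pt e col u v σ y‖ ^ 2 = 1 := by
    rw [← real_inner_self_eq_norm_sq, inner_same, real_inner_self_eq_norm_sq, hy]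
    linarith
  nlinarith [norm_nonneg (pt e col u v σ y)]

lemma inner_diff {σ σ' : Fin m → Bool} (h : σ ≠ σ') {y y' : EuclideanSpace ℝ (Fin p)}
    (hy : ‖y‖ = 1) (hy' : ‖y'‖ = 1) : ⟪pt e col u v σ y, pt e col u v σ' y'⟫_ℝ ≤ v ^ 2 := by
  rw [inner_pt, if_neg h, zero_add]
  have h1 : ∑ j, sg col σ j * y j * (sg col σ' j * y' j) ≤ ∑ j, (‖y j‖ ^ 2 + ‖y' j‖ ^ 2) / 2 := by
    refine Finset.sum_le_sum fun j _ => ?_
    rw [Real.norm_eq_abs, Real.norm_eq_abs, sq_abs, sq_abs]
    have h2 : (sg col σ j * y j) ^ 2 = y j ^ 2 := by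
      rw [mul_pow, sq (sg col σ j), Pool.Agent.H58.ST.sg_sq, one_mul]
    have h3 : (sg col σ' j * y' j) ^ 2 = y' j ^ 2 := by
      rw [mul_pow, sq (sg col σ' j), Pool.Agent.H58.ST.sg_sq, one_mul]
    nlinarith [sq_nonneg (sg col σ j * y j - sg col σ' j * y' j)]
  rw [← Finset.sum_div, Finset.sum_add_distrib, ← EuclideanSpace.norm_sq_eq,
    ← EuclideanSpace.norm_sq_eq, hy, hy'] at h1
  nlinarith [sq_nonneg v]

end

/-- the example -/
theorem example_code {θ : ℝ} (h0 : 0 < θ) (h1 : θ < Real.pi / 3) : ∃ η : ℝ, 0 < η ∧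
    ∀ κ : ℝ, 0 < κ → ∃ C : ℕ, ∀ᶠ n : ℕ in atTop, ∃ (X : Finset (EuclideanSpace ℝ (Fin n)))
      (T : Set (EuclideanSpace ℝ (Fin n) ≃ₗᵢ[ℝ] EuclideanSpace ℝ (Fin n))), IsSphCode n θ X ∧
      (∀ g ∈ T, (1 - κ) * n ≤ finrank ℝ (fixS {g}) ∧ (1 - κ) * n ≤ trc g ∧ ∀ x ∈ X, g x ∈ X) ∧
      finrank ℝ (fixS T) ≤ C ∧ sphMax (n - C) (Real.arccos (2 - 1 / Real.cos θ)) ≤ X.card ∧
      (2 : ℝ) ^ (η * n) ≤ X.card := by
  have hcos : 1 / 2 < Real.cos θ := by
    rw [← Real.cos_pi_div_three]
    exact Real.cos_lt_cos_of_nonneg_of_le_pi h0.le (by linarith [Real.pi_pos]) h1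
  have hcos1 : Real.cos θ < 1 := by
    rw [← Real.cos_zero]
    exact Real.cos_lt_cos_of_nonneg_of_le_pi le_rfl (by linarith [Real.pi_pos]) h0
  have hcos0 : 0 < Real.cos θ := by linarith
  have hb0 : 0 < 2 - 1 / Real.cos θ := by
    rw [sub_pos, div_lt_iff₀ hcos0]
    linarith
  have hb1 : 2 - 1 / Real.cos θ < 1 := by
    have : 1 < 1 / Real.cos θ := by rw [lt_div_iff₀ hcos0]; linarith
    linarith
  set θ' := Real.arccos (2 - 1 / Real.cos θ) with hθ'
  have hc' : Real.cos θ' = 2 - 1 / Real.cos θ := Real.cos_arccos (by linarith) hb1.le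
  have h0' : 0 < θ' := by
    rw [hθ', Real.arccos_pos]
    exact hb1
  have h1' : θ' < Real.pi / 2 := by
    rw [hθ', Real.arccos_lt_pi_div_two]
    exact hb0
  have hs' : 0 < Real.sin (θ' / 2) :=
    Real.sin_pos_of_pos_of_lt_pi (by linarith) (by linarith [Real.pi_pos])
  set u : ℝ := √(1 - Real.cos θ) with hu
  set v : ℝ := √(Real.cos θ) with hv
  have hu2 : u ^ 2 = 1 - Real.cos θ := Real.sq_sqrt (by linarith)
  have hv2 : v ^ 2 = Real.cos θ := Real.sq_sqrt hcos0.le
  have huv : u ^ 2 + v ^ 2 = 1 := by rw [hu2, hv2]; ring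
  obtain ⟨c, hc, hrate⟩ := exists_rate h0' h1'
  have hlc : 0 < Real.logb 2 c := Real.logb_pos (by norm_num) hc
  refine ⟨Real.logb 2 c / 2, by positivity, fun κ hκ => ?_⟩
  obtain ⟨m, hm⟩ := exists_nat_gt (4 / κ)
  have hm0 : (0 : ℝ) < m := lt_trans (by positivity) hm
  have hm0' : 0 < m := by exact_mod_cast hm0
  refine ⟨2 ^ m, ?_⟩
  have hev : ∀ᶠ n : ℕ in atTop, ((2 : ℝ) ^ m + 2) * (2 / κ) ≤ n :=
    tendsto_natCast_atTop_atTop.eventually_ge_atTop _
  filter_upwards [hev, eventually_gt_atTop (2 * 2 ^ m)] with n hn hn2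
  have hn0 : (0 : ℝ) < n := by
    have : 0 < n := by omega
    exact_mod_cast this
  classical
  set p := n - 2 ^ m with hp
  have hp0 : 0 < p := by omega
  have hpn : (p : ℝ) = n - 2 ^ m := by
    rw [hp, Nat.cast_sub (by omega)]
    push_cast
    ring
  have hcard : Fintype.card (Fin n) = Fintype.card ((Fin m → Bool) ⊕ Fin p) := by
    rw [Fintype.card_sum, Fintype.card_fun, Fintype.card_fin, Fintype.card_fin, Fintype.card_fin,
      Fintype.card_bool]
    omega
  set e := Fintype.equivOfCardEq hcard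
  set col := colOf m p hm0' with hcol
  have : NeZero p := ⟨hp0.ne'⟩
  obtain ⟨Y, hY, hYc⟩ := Nat.sSup_mem (sph_nonempty p θ') (sph_bdd hs')
  change Y.card = sphMax p θ' at hYc
  set X : Finset (EuclideanSpace ℝ (Fin n)) :=
    ((Finset.univ : Finset (Fin m → Bool)) ×ˢ Y).image fun q => pt e col u v q.1 q.2 with hX
  -- the size of the classes
  have hd : ((p / m + 1 : ℕ) : ℝ) ≤ n / m + 1 := by
    rw [Nat.cast_add, Nat.cast_one]
    have h2 : ((p / m : ℕ) : ℝ) ≤ (p : ℝ) / m := Nat.cast_div_le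
    have h3 : (p : ℝ) / m ≤ n / m := by
      apply div_le_div_of_nonneg_right _ hm0.le
      rw [hpn]
      have : (0 : ℝ) < 2 ^ m := by positivity
      linarith
    linarith
  have hnm : 2 * (n / m : ℝ) ≤ κ / 2 * n := by
    have h2 : 4 < κ * m := by
      rw [div_lt_iff₀ hκ] at hm
      linarith
    rw [← mul_div_assoc, div_le_iff₀ hm0]
    nlinarith
  have hn' : (2 : ℝ) ^ m + 2 ≤ κ / 2 * n := by
    have h2 : ((2 : ℝ) ^ m + 2) * (2 / κ) * (κ / 2) ≤ n * (κ / 2) :=
      mul_le_mul_of_nonneg_right hn (by positivity)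
    have h3 : ((2 : ℝ) ^ m + 2) * (2 / κ) * (κ / 2) = (2 : ℝ) ^ m + 2 := by
      field_simp
    linarith
  have hclass : ∀ i : Fin m, ((Finset.univ.filter fun j : Fin p => col j = i).card : ℝ) ≤
      n / m + 1 := fun i => by
    have h2 := card_col m p hm0' i
    have h3 : ((Finset.univ.filter fun j : Fin p => col j = i).card : ℝ) ≤
      ((p / m + 1 : ℕ) : ℝ) := by exact_mod_cast h2
    exact h3.trans hd
  have hcount : ∀ i : Fin m, ((Finset.univ.filter fun j : Fin p => col j ≠ i).card : ℝ) =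
      p - (Finset.univ.filter fun j : Fin p => col j = i).card := fun i => by
    have h2 := Finset.card_filter_add_card_filter_not (s := (Finset.univ : Finset (Fin p)))
      (fun j => col j = i)
    rw [Finset.card_univ, Fintype.card_fin] at h2
    have h3 : ((Finset.univ.filter fun j : Fin p => col j = i).card : ℝ) +
      (Finset.univ.filter fun j : Fin p => ¬ col j = i).card = p := by exact_mod_cast h2
    change ((Finset.univ.filter fun j : Fin p => ¬ col j = i).card : ℝ) = _
    linarith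
  refine ⟨X, Set.range (gAt e col), ⟨?_, ?_⟩, ?_, finrank_fix_all e col, ?_⟩
  · intro x hx
    obtain ⟨⟨σ, y⟩, hq, rfl⟩ := Finset.mem_image.1 hx
    exact norm_pt e col u v huv σ (hY.1 y (Finset.mem_product.1 hq).2)
  · intro x hx x' hx' hne
    obtain ⟨⟨σ, y⟩, hq, rfl⟩ := Finset.mem_image.1 hx
    obtain ⟨⟨σ', y'⟩, hq', rfl⟩ := Finset.mem_image.1 hx'
    have hy := (Finset.mem_product.1 hq).2
    have hy' := (Finset.mem_product.1 hq').2
    by_cases h : σ = σ'
    · subst h
      have hyy : y ≠ y' := fun h => hne (by simp only [h])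
      simp only
      rw [inner_same, hu2, hv2]
      have h2 := hY.2 y hy y' hy' hyy
      rw [hc'] at h2
      have h3 := mul_le_mul_of_nonneg_left h2 hcos0.le
      have h4 : Real.cos θ * (2 - 1 / Real.cos θ) = 2 * Real.cos θ - 1 := by
        field_simp
      linarith
    · exact (inner_diff e col u v h (hY.1 y hy) (hY.1 y' hy')).trans hv2.le
  · rintro _ ⟨i, rfl⟩
    refine ⟨?_, ?_, ?_⟩
    · have h2 : ((Finset.univ.filter fun j : Fin p => col j ≠ i).card : ℝ) ≤
          finrank ℝ (fixS {gAt e col i}) := by exact_mod_cast finrank_fix_ge e col i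
      refine le_trans ?_ h2
      rw [hcount i, hpn]
      have h3 := hclass i
      have : (0 : ℝ) ≤ n / m := by positivity
      linarith
    · rw [trc, trace_gAt]
      have h2 : ∑ j : Fin p, (if col j = i then (-1 : ℝ) else 1) =
          p - 2 * (Finset.univ.filter fun j : Fin p => col j = i).card := by
        have h3 : ∀ j : Fin p, (if col j = i then (-1 : ℝ) else 1) =
            1 - 2 * (if col j = i then (1 : ℝ) else 0) := by
          intro j
          split_ifs <;> norm_num
        rw [Finset.sum_congr rfl fun j _ => h3 j, Finset.sum_sub_distrib, ← Finset.mul_sum,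
          Finset.sum_boole]
        simp
      rw [h2, hpn]
      have h3 := hclass i
      linarith
    · intro x hx
      obtain ⟨⟨σ, y⟩, hq, rfl⟩ := Finset.mem_image.1 hx
      simp only
      rw [gAt_pt]
      exact Finset.mem_image.2 ⟨(flipAt i σ, y), Finset.mem_product.2
        ⟨Finset.mem_univ _, (Finset.mem_product.1 hq).2⟩, rfl⟩
  · -- the number of points
    have h2 : Y.card ≤ X.card := by
      apply Finset.card_le_card_of_injOn (fun y => pt e col u v (fun _ => false) y)
      · intro y hy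
        exact Finset.mem_coe.2 (Finset.mem_image.2 ⟨(fun _ => false, y), Finset.mem_product.2
          ⟨Finset.mem_univ _, hy⟩, rfl⟩)
      · intro y hy y' hy' h
        by_contra hne
        have h3 : ⟪pt e col u v (fun _ => false) y, pt e col u v (fun _ => false) y'⟫_ℝ = 1 := by
          have h4 : pt e col u v (fun _ => false) y = pt e col u v (fun _ => false) y' := h
          rw [h4, real_inner_self_eq_norm_sq, norm_pt e col u v huv _ (hY.1 y' hy')]
          norm_num
        rw [inner_same, hu2, hv2] at h3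
        have h5 := hY.2 y hy y' hy' hne
        rw [hc'] at h5
        nlinarith
    rw [hYc] at h2
    refine ⟨h2, ?_⟩
    have h3 : (sphMax p θ' : ℝ) ≤ X.card := by exact_mod_cast h2
    refine le_trans ?_ ((hrate p hp0).trans h3)
    have h4 : c ^ p = (2 : ℝ) ^ (Real.logb 2 c * p) := by
      rw [Real.rpow_mul (by norm_num), Real.rpow_logb (by norm_num) (by norm_num) (by linarith),
        Real.rpow_natCast]
    rw [h4]
    apply Real.rpow_le_rpow_of_exponent_le (by norm_num)
    rw [hpn]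
    have h5 : (2 * 2 ^ m : ℝ) ≤ n := by exact_mod_cast hn2.le
    nlinarith

end Pool.Agent.H58.SU
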