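import Pool.Agent.H58.SU.Class
import Pool.Agent.H58.ST.Main

/-!
# The counting
-/

set_option autoImplicit false
set_option linter.unusedSectionVars false

open Module
open scoped InnerProductSpace

namespace Pool.Agent.H58.SU

open Pool.Agent.H58.SK Pool.Agent.H58.ST Pool.Agent.H818R2 Pool.Agent.H161R2.KissSym

section

variable {n : ℕ} {θ : ℝ} {X : Finset (EuclideanSpace ℝ (Fin n))}
  {T : Finset (EuclideanSpace ℝ (Fin n) ≃ₗᵢ[ℝ] EuclideanSpace ℝ (Fin n))}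

/-- the bound for the points which are mapped into `X` by the words of length `r` -/
theorem main_count [NeZero n] {θ₁ : ℝ} (hθ0 : 0 < θ) (hθ1 : θ < Real.pi / 2) (hθ₁0 : 0 < θ₁)
    (hθ₁1 : θ₁ < Real.pi / 2)
    {X₀ : Finset (EuclideanSpace ℝ (Fin n))} (hX₀ : IsSphCode n θ X₀) (hXX : X ⊆ X₀)
    (h1T : 1 ∈ T) {r : ℕ} (hT : ∀ w ∈ words T r, ∀ x ∈ X, w x ∈ X₀) {a : ℝ} (ha : 0 < a)
    (ha1 : 17 * a ≤ 1 - Real.cos θ - Real.cos θ * (1 - Real.cos θ₁))
    (ha2 : 16 * a ≤ 1 - Real.cos θ) (hr : 1 / a + 1 ≤ r) {B : ℝ} (hB0 : 0 ≤ B) (hB : ∀ t ∈ T, Sm t B) {q k d : ℕ}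
    (hq : 1 / a ^ 2 ≤ q) (hk : 4 ^ (r + 1) * B / a ^ 2 ≤ k)
    (hd : finrank ℝ (fixS (T : Set (EuclideanSpace ℝ (Fin n) ≃ₗᵢ[ℝ] EuclideanSpace ℝ (Fin n)))) +
      (r : ℝ) ^ r * ((r.factorial : ℝ) ^ 2 * B / 2) ≤ d) {M : ℝ} (hM : (sphMax d θ : ℝ) ≤ M)
    (hM1 : 1 ≤ M) (hM2 : (sphMax n θ₁ : ℝ) ≤ M) :
    (X.card : ℝ) ≤ (T.card ^ (2 * r) + 1 : ℝ) ^ q * (2 + 2 / a) ^ (q * k) * M := by
  classical
  have hX : IsSphCode n θ X := ⟨fun x hx => hX₀.1 x (hXX hx), fun x hx y hy hxy =>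
    hX₀.2 x (hXX hx) y (hXX hy) hxy⟩
  have hs : 0 < Real.sin (θ / 2) :=
    Real.sin_pos_of_pos_of_lt_pi (by linarith) (by linarith [Real.pi_pos])
  have hs₁ : 0 < Real.sin (θ₁ / 2) :=
    Real.sin_pos_of_pos_of_lt_pi (by linarith) (by linarith [Real.pi_pos])
  have hcos0 : 0 < Real.cos θ := Real.cos_pos_of_mem_Ioo ⟨by linarith, hθ1⟩
  have hcos1 : Real.cos θ < 1 := by
    have h1 := cos_eq θ
    have h2 : 0 < Real.sin (θ / 2) ^ 2 := by positivity
    linarith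
  have hcos₁0 : 0 < Real.cos θ₁ := Real.cos_pos_of_mem_Ioo ⟨by linarith, hθ₁1⟩
  have hcos₁1 : Real.cos θ₁ < 1 := by
    have h1 := cos_eq θ₁
    have h2 : 0 < Real.sin (θ₁ / 2) ^ 2 := by positivity
    linarith
  set D : ℝ := 2 * Real.sin (θ / 2) with hD
  have hD0 : 0 < D := by positivity
  have hD2 : D ^ 2 = 2 * (1 - Real.cos θ) := by
    rw [hD, cos_eq θ]
    ring
  have hDle : D ≤ 2 := by
    rw [hD]
    linarith [Real.sin_le_one (θ / 2)]
  have ha' : 5 * a < D := by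
    have h1 : 16 * a ≤ D ^ 2 / 2 := by rw [hD2]; linarith
    nlinarith
  have hXs : ∀ x ∈ X₀, ∀ y ∈ X₀, x ≠ y → D ≤ ‖x - y‖ := by
    intro x hx y hy hxy
    have h1 := hX₀.2 x hx y hy hxy
    have h2 := norm_sub_sq_real x y
    rw [hX₀.1 x hx, hX₀.1 y hy] at h2
    exact le_of_sq_le_sq (by rw [hD2]; linarith) (norm_nonneg _)
  set H : Finset (EuclideanSpace ℝ (Fin n) ≃ₗᵢ[ℝ] EuclideanSpace ℝ (Fin n)) := (words T r ×ˢ words T r).image fun p => p.1⁻¹ * p.2 with hH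
  have hHm : ∀ g ∈ words T r, ∀ g' ∈ words T r, g⁻¹ * g' ∈ H := fun g hg g' hg' =>
    Finset.mem_image.2 ⟨(g, g'), Finset.mem_product.2 ⟨hg, hg'⟩, rfl⟩
  have hHc : H.card ≤ T.card ^ (2 * r) := by
    refine Finset.card_image_le.trans ?_
    rw [Finset.card_product, two_mul, pow_add]
    exact Nat.mul_le_mul (words_card T r) (words_card T r)
  have hHsm : ∀ h ∈ H, Sm h (4 ^ (r + 1) * B) := by
    intro h hh
    obtain ⟨⟨g, g'⟩, hg, rfl⟩ := Finset.mem_image.1 hh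
    rw [Finset.mem_product] at hg
    refine ((words_sm hB0 hB r g hg.1).inv.mul (words_sm hB0 hB r g' hg.2)).mono ?_
    rw [pow_succ]
    linarith
  -- the subspaces
  have hV : ∀ h : EuclideanSpace ℝ (Fin n) ≃ₗᵢ[ℝ] EuclideanSpace ℝ (Fin n), ∃ V : Submodule ℝ (EuclideanSpace ℝ (Fin n)), h ∈ H → (finrank ℝ V ≤ k ∧
      ∀ x ∈ Vᗮ, ‖h x - x‖ ≤ a * ‖x‖) := by
    intro h
    by_cases hh : h ∈ H
    · obtain ⟨V, hV1, hV2⟩ := exists_big (hHsm h hh) ha
      refine ⟨V, fun _ => ⟨?_, hV2⟩⟩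
      have h1 : (finrank ℝ V : ℝ) ≤ k := by
        refine le_trans ?_ hk
        rw [le_div_iff₀ (by positivity)]
        exact hV1
      exact_mod_cast h1
    · exact ⟨⊥, fun h' => absurd h' hh⟩
  choose V hV using hV
  -- the choice of few elements
  have hS : ∀ x : EuclideanSpace ℝ (Fin n), ∃ S : Finset (EuclideanSpace ℝ (Fin n) ≃ₗᵢ[ℝ] EuclideanSpace ℝ (Fin n)), x ∈ X → (S ⊆ H ∧ (S.card : ℝ) * a ^ 2 ≤ 1 ∧
      ∀ h ∈ H, ‖(V h).starProjection (x - (sumV V S).starProjection x)‖ < a) := by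
    intro x
    by_cases hx : x ∈ X
    · obtain ⟨S, h1, h2, h3⟩ := exists_few V H (hX.1 x hx) ha
      exact ⟨S, fun _ => ⟨h1, h2, h3⟩⟩
    · exact ⟨∅, fun h' => absurd h' hx⟩
  choose S hS using hS
  have hScard : ∀ x ∈ X, (S x).card ≤ q := by
    intro x hx
    have h1 : ((S x).card : ℝ) ≤ q := by
      refine le_trans ?_ hq
      rw [le_div_iff₀ (by positivity)]
      exact (hS x hx).2.1
    exact_mod_cast h1
  -- the classes
  have hclass : ∀ (S₀ : Finset (EuclideanSpace ℝ (Fin n) ≃ₗᵢ[ℝ] EuclideanSpace ℝ (Fin n))) (z : EuclideanSpace ℝ (Fin n)), ‖z‖ ≤ 1 →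
      (((X.filter fun x => S x = S₀).filter fun x =>
        ‖(sumV V S₀).starProjection x - z‖ < a).card : ℝ) ≤ M := by
    intro S₀ z hz
    set C := (X.filter fun x => S x = S₀).filter fun x =>
      ‖(sumV V S₀).starProjection x - z‖ < a with hC
    have hCX : C ⊆ X := fun x hx => (Finset.mem_filter.1 (Finset.mem_filter.1 hx).1).1
    have hCc : Pool.Agent.H58.SU.IsClass T r V (sumV V S₀) z a C := by
      constructor
      · intro x hx
        exact (Finset.mem_filter.1 hx).2.le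
      · intro x hx g hg g' hg'
        have h1 := (hS x (hCX hx)).2.2 _ (hHm g hg g' hg')
        rw [(Finset.mem_filter.1 (Finset.mem_filter.1 hx).1).2] at h1
        exact h1.le
    rcases le_or_gt (‖z‖ ^ 2) ((D - 5 * a) ^ 2 / 2 - a) with hcase | hcase
    · obtain ⟨P, hP1, hP2⟩ := class_short hX₀.1 hXs (fun w hw x hx => hT w hw x (hCX hx)) ha ha'
        (fun g hg g' hg' => (hV _ (hHm g hg g' hg')).2) hCc (hCX.trans hXX) h1T hr hz hcase hB0 hB
      have h1 : C.card ≤ sphMax (finrank ℝ P) θ := card_le_sub hs P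
        ⟨fun x hx => hX.1 x (hCX hx), fun x hx y hy hxy => hX.2 x (hCX hx) y (hCX hy) hxy⟩ hP1
      have h2 : finrank ℝ P ≤ d := by exact_mod_cast hP2.trans hd
      refine le_trans ?_ hM
      exact_mod_cast h1.trans (sphMax_mono hs h2)
    · rcases class_long (θ := θ) (θ₁ := θ₁) hs₁ ⟨fun x hx => hX.1 x (hCX hx),
        fun x hx y hy hxy => hX.2 x (hCX hx) y (hCX hy) hxy⟩ ha hCc.near hz
        (by nlinarith) hcos₁0.le ha1 ha2 (by linarith) hcos₁1 with h1 | h1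
      · refine le_trans ?_ hM1
        exact_mod_cast h1
      · refine le_trans ?_ hM2
        exact_mod_cast h1
  -- the points with given `S`
  have hfib : ∀ S₀ : Finset (EuclideanSpace ℝ (Fin n) ≃ₗᵢ[ℝ] EuclideanSpace ℝ (Fin n)), S₀ ⊆ H → S₀.card ≤ q →
      ((X.filter fun x => S x = S₀).card : ℝ) ≤ (2 + 2 / a) ^ (q * k) * M := by
    intro S₀ hS₀ hS₀c
    set Z := sumV V S₀ with hZ
    set D₀ := X.filter fun x => S x = S₀ with hD₀
    have hpr : ∀ x ∈ D₀, ‖Z.starProjection x‖ ≤ 1 := by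
      intro x hx
      have h1 := hX.1 x (Finset.mem_filter.1 hx).1
      have h2 : ‖Z.starProjection x‖ ≤ ‖x‖ := by
        have h3 := norm_proj_mono (le_top : Z ≤ ⊤) x
        rw [Submodule.starProjection_top'] at h3
        exact h3
      rwa [h1] at h2
    obtain ⟨Y, hY1, hY2, hY3⟩ := exists_net Z (D₀.image fun x => Z.starProjection x)
      (by
        intro p hp
        obtain ⟨x, hx, rfl⟩ := Finset.mem_image.1 hp
        exact ⟨Submodule.starProjection_apply_mem _ _, hpr x hx⟩) ha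
    have h1 : D₀ ⊆ Y.biUnion fun y => D₀.filter fun x => ‖Z.starProjection x - y‖ < a := by
      intro x hx
      obtain ⟨y, hy, hxy⟩ := hY3 _ (Finset.mem_image_of_mem _ hx)
      rw [Finset.mem_biUnion]
      exact ⟨y, hy, Finset.mem_filter.2 ⟨hx, hxy⟩⟩
    have h2 : (D₀.card : ℝ) ≤ ∑ y ∈ Y, ((D₀.filter fun x => ‖Z.starProjection x - y‖ < a).card : ℝ) := by
      have := (Finset.card_le_card h1).trans Finset.card_biUnion_le
      exact_mod_cast this
    refine h2.trans ?_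
    have h3 : ∀ y ∈ Y, ((D₀.filter fun x => ‖Z.starProjection x - y‖ < a).card : ℝ) ≤ M := by
      intro y hy
      obtain ⟨x, hx, hxy⟩ := Finset.mem_image.1 (hY1 hy)
      exact hclass S₀ y (by rw [← hxy]; exact hpr x hx)
    refine (Finset.sum_le_sum h3).trans ?_
    rw [Finset.sum_const, nsmul_eq_mul]
    refine mul_le_mul_of_nonneg_right (hY2.trans ?_) (by linarith)
    apply pow_le_pow_right₀
    · have : 0 < 2 / a := by positivity
      linarith
    · refine (finrank_sumV V S₀ (k := k) fun h hh => (hV h (hS₀ hh)).1).trans ?_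
      exact Nat.mul_le_mul_right _ hS₀c
  -- the sum
  set 𝒮 := H.powerset.filter fun J => J.card ≤ q with h𝒮
  have h1 : X ⊆ 𝒮.biUnion fun S₀ => X.filter fun x => S x = S₀ := by
    intro x hx
    rw [Finset.mem_biUnion]
    refine ⟨S x, ?_, Finset.mem_filter.2 ⟨hx, rfl⟩⟩
    rw [h𝒮, Finset.mem_filter, Finset.mem_powerset]
    exact ⟨(hS x hx).1, hScard x hx⟩
  have h2 : (X.card : ℝ) ≤ ∑ S₀ ∈ 𝒮, ((X.filter fun x => S x = S₀).card : ℝ) := by
    have := (Finset.card_le_card h1).trans Finset.card_biUnion_le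
    exact_mod_cast this
  refine h2.trans ?_
  have h3 : ∀ S₀ ∈ 𝒮, ((X.filter fun x => S x = S₀).card : ℝ) ≤ (2 + 2 / a) ^ (q * k) * M := by
    intro S₀ hS₀
    rw [h𝒮, Finset.mem_filter, Finset.mem_powerset] at hS₀
    exact hfib S₀ hS₀.1 hS₀.2
  refine (Finset.sum_le_sum h3).trans ?_
  rw [Finset.sum_const, nsmul_eq_mul, mul_assoc]
  refine mul_le_mul_of_nonneg_right ?_ (by positivity)
  have h4 := (card_small_sub H q).trans (Nat.pow_le_pow_left (Nat.add_le_add_right hHc 1) q)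
  exact_mod_cast h4

end

end Pool.Agent.H58.SU
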