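import Pool.Agent.H104.Refl.Local2
import Pool.Agent.H58.ST.Asym

/-!
# Growth rates for symmetries of rank `o(n)`
-/

set_option autoImplicit false

open Module Filter Topology
open scoped InnerProductSpace

namespace Pool.Agent.H58.SU

open Pool.Agent.H58.ST Pool.Agent.H58.SK Pool.Agent.H818R2

/-- the trace of an isometry with a large fixed space -/
lemma trc_ge {n : ℕ} (g : EuclideanSpace ℝ (Fin n) ≃ₗᵢ[ℝ] EuclideanSpace ℝ (Fin n)) :
    2 * (finrank ℝ (fixS {g}) : ℝ) - n ≤ trc g := by
  set V := (fixS {g})ᗮ with hV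
  set b := EuclideanSpace.basisFun (Fin n) ℝ with hb
  set c := stdOrthonormalBasis ℝ V with hc
  have htr : trc g = ∑ i, ⟪b i, g (b i)⟫_ℝ := by
    unfold trc
    rw [LinearMap.trace_eq_sum_inner _ b]
    rfl
  have hdim : (finrank ℝ (fixS {g}) : ℝ) + finrank ℝ V = n := by
    have h1 := Submodule.finrank_add_finrank_orthogonal (fixS {g})
    rw [finrank_euclideanSpace_fin] at h1
    exact_mod_cast h1
  have h1 : ∀ x, ‖g x - x‖ ≤ 2 * ‖V.starProjection x‖ := by
    intro x
    have hVV : Vᗮ = fixS {g} := Submodule.orthogonal_orthogonal _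
    have h2 : x - V.starProjection x ∈ fixS {g} := by
      have h3 : x - V.starProjection x ∈ Vᗮ := Submodule.sub_starProjection_mem_orthogonal x
      exact hVV.le h3
    have h3 : g (x - V.starProjection x) = x - V.starProjection x := h2 g rfl
    have h4 : g x - x = g (V.starProjection x) - V.starProjection x := by
      rw [map_sub] at h3
      have h5 : g x = g (V.starProjection x) + (x - V.starProjection x) := by
        rw [← h3]
        abel
      rw [h5]
      abel
    rw [h4]
    refine (norm_sub_le _ _).trans ?_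
    rw [LinearIsometryEquiv.norm_map]
    linarith
  have h2 : ∀ x, ‖V.starProjection x‖ ^ 2 = ∑ j, ⟪(c j : EuclideanSpace ℝ (Fin n)), x⟫_ℝ ^ 2 := by
    intro x
    rw [← sum_onb c (V.starProjection_apply_mem x)]
    refine Finset.sum_congr rfl fun j _ => ?_
    congr 1
    rw [← Submodule.inner_starProjection_left_eq_right, Submodule.starProjection_eq_self_iff.2 (c j).2]
  have h3 : ∑ i, ‖V.starProjection (b i)‖ ^ 2 = finrank ℝ V := by
    rw [Finset.sum_congr rfl fun i _ => h2 (b i), Finset.sum_comm]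
    have h4 : ∀ j, ∑ i, ⟪(c j : EuclideanSpace ℝ (Fin n)), b i⟫_ℝ ^ 2 = 1 := by
      intro j
      have h5 := b.sum_sq_norm_inner_left (c j : EuclideanSpace ℝ (Fin n))
      have h6 : ‖(c j : EuclideanSpace ℝ (Fin n))‖ = 1 := c.orthonormal.1 j
      rw [h6, one_pow] at h5
      rw [← h5]
      refine Finset.sum_congr rfl fun i _ => ?_
      rw [Real.norm_eq_abs, sq_abs]
    rw [Finset.sum_congr rfl fun j _ => h4 j]
    simp
  have h4 : ∑ i, ‖g (b i) - b i‖ ^ 2 ≤ 4 * finrank ℝ V := by
    rw [← h3, Finset.mul_sum]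
    refine Finset.sum_le_sum fun i _ => ?_
    have := pow_le_pow_left₀ (norm_nonneg _) (h1 (b i)) 2
    rw [mul_pow] at this
    linarith
  have h5 : ∀ i, ‖g (b i) - b i‖ ^ 2 = 2 - 2 * ⟪b i, g (b i)⟫_ℝ := by
    intro i
    rw [norm_sub_sq_real, LinearIsometryEquiv.norm_map, b.norm_eq_one, real_inner_comm]
    ring
  rw [Finset.sum_congr rfl fun i _ => h5 i, Finset.sum_sub_distrib, Finset.sum_const, Finset.card_univ,
    Fintype.card_fin, nsmul_eq_mul, ← Finset.mul_sum, ← htr] at h4
  linarith

open Pool.Agent.H104.Refl in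
/-- the growth rates for symmetries of rank `D n = o(n)` -/
theorem sym_rates' {D : ℕ → ℕ} (hD : ∀ n, 1 ≤ D n) (hD0 : Tendsto (fun n : ℕ => (D n : ℝ) / n) atTop (𝓝 0))
    {δ : ℝ} (h0 : 0 ≤ δ) (h1 : δ < 1) :
    limsup (fun n : ℕ => Real.logb 2 (symKiss (D n) n (n - ⌊δ * n⌋₊)) / n) atTop =
      (1 - δ) * cplus ∧
    liminf (fun n : ℕ => Real.logb 2 (symKiss (D n) n (n - ⌊δ * n⌋₊)) / n) atTop =
      (1 - δ) * cminus := by
  have h := rates (F := fun n => symKiss (D n) n (phi δ n)) h0 h1
    (Eventually.of_forall fun n => le_symKiss (hD n) (Nat.sub_le _ _)) (by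
      intro η hη
      obtain ⟨κ, hκ, s, hmain⟩ := main_asym (le_refl (Real.pi / 3)) pi3.2 hη
      filter_upwards [hmain, hD0.eventually_lt_const (half_pos hκ), eventually_gt_atTop 0,
        (phi_tendsto h0 h1).eventually_ge_atTop 4] with n hn hDn hn0 hp
      have hn0' : (0 : ℝ) < n := by exact_mod_cast hn0
      rw [div_lt_iff₀ hn0'] at hDn
      rcases Set.eq_empty_or_nonempty {N | ∃ (G : Set (Iso n)) (X : Finset (EuclideanSpace ℝ (Fin n))),
          IsSphCode n (Real.pi / 3) X ∧ LocalSym (D n) G X ∧ fixDim G = phi δ n ∧ X.card = N} with he | he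
      · unfold symKiss
        rw [he, csSup_empty]
        simp only [bot_eq_zero', Nat.cast_zero]
        positivity
      · have hmem := Nat.sSup_mem he (symKiss_bdd (D n) n (phi δ n))
        obtain ⟨G, X, hX, hG, hf, hc⟩ := hmem
        change X.card = symKiss (D n) n (phi δ n) at hc
        have h2 := hn X hX G fun g hg => by
          refine ⟨?_, ?_⟩
          · have h3 := trc_ge g
            have h4 : (n : ℝ) ≤ finrank ℝ (fixS {g}) + D n := by exact_mod_cast (hG g hg).1
            linarith
          · rw [misses_eq_zero fun x hx => (hG g hg).2 x hx, mul_zero]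
            exact Nat.zero_le _
        have h3 : finrank ℝ (fixS G) = phi δ n := hf
        rw [h3, max_eq_left hp, hc] at h2
        exact h2)
  exact h

end Pool.Agent.H58.SU
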